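import Mathlib

set_option autoImplicit false

namespace Pool.Agent.X185.DWCO

open MeasureTheory Set Filter Topology

universe v

noncomputable def cutL (n : ℕ) (t : ℝ) : ℝ := max 0 (min 1 (min (n + 1 + t) (-((n + 1) * t))))

def S_CO : Prop := ∀ M γ η : ℝ, 0 < γ → 0 < η → ∃ (n : ℕ) (δ : ℝ), 0 < δ ∧
  ∀ (V : Type v) [NormedAddCommGroup V] (g : ℝ → V), Continuous g →
  (∀ s : ℝ, 0 ≤ s → ‖g s‖ ≤ M * Real.exp (-(γ * s))) →
  ∫ s in Ioi (0 : ℝ), ‖g s‖ ≤ (∫ s in Ioi (0 : ℝ), cutL n (-s) * (‖g s‖ ^ 2 / (‖g s‖ + δ))) + η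

lemma cut_nonneg (n : ℕ) (t : ℝ) : 0 ≤ cutL n t := le_max_left _ _

lemma cut_le_one (n : ℕ) (t : ℝ) : cutL n t ≤ 1 :=
  max_le zero_le_one (min_le_left _ _)

lemma cut_cont (n : ℕ) : Continuous (fun s : ℝ => cutL n (-s)) := by
  unfold cutL; fun_prop

lemma cut_le_exp (n : ℕ) (s : ℝ) : cutL n (-s) ≤ Real.exp (n + 1) * Real.exp (-s) := by
  rw [← Real.exp_add]
  unfold cutL
  apply max_le (Real.exp_pos _).le
  rcases le_total s (n + 1) with h | h
  · calc _ ≤ (1 : ℝ) := min_le_left _ _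
      _ ≤ _ := Real.one_le_exp (by linarith)
  · calc _ ≤ (n + 1 + -s : ℝ) := (min_le_right _ _).trans (min_le_left _ _)
      _ ≤ 0 := by linarith
      _ ≤ _ := (Real.exp_pos _).le

lemma cut_ev (s : ℝ) (hs : 0 < s) : ∀ᶠ n : ℕ in atTop, cutL n (-s) = 1 := by
  obtain ⟨N, hN⟩ := exists_nat_gt (max s (1 / s))
  filter_upwards [eventually_ge_atTop N] with n hn
  have hn' : (N : ℝ) ≤ n := by exact_mod_cast hn
  have h1 : s < n := (le_max_left _ _).trans_lt (hN.trans_le hn')
  have h2 : 1 / s < n := (le_max_right _ _).trans_lt (hN.trans_le hn')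
  have h3 : 1 < n * s := by rwa [div_lt_iff₀ hs] at h2
  unfold cutL
  rw [min_eq_left, max_eq_right zero_le_one]
  apply le_min
  · linarith
  · nlinarith

theorem t_CO : S_CO.{v} := by
  intro M γ η hγ hη
  have hexp : IntegrableOn (fun s : ℝ => Real.exp (-(γ * s))) (Ioi 0) := by
    have := integrableOn_exp_mul_Ioi (a := -γ) (by linarith) 0
    simpa [neg_mul] using this
  have hexp1 : IntegrableOn (fun s : ℝ => Real.exp (-s)) (Ioi 0) := integrableOn_exp_neg_Ioi 0
  have hlim : Tendsto (fun n : ℕ => ∫ s in Ioi (0 : ℝ), |M| * Real.exp (-(γ * s)) * (1 - cutL n (-s)))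
      atTop (𝓝 (∫ s in Ioi (0 : ℝ), (0 : ℝ))) := by
    apply tendsto_integral_of_dominated_convergence (fun s => |M| * Real.exp (-(γ * s)))
    · intro n
      apply Continuous.aestronglyMeasurable
      have := cut_cont n
      fun_prop
    · exact hexp.const_mul _
    · intro n
      refine Filter.Eventually.of_forall fun s => ?_
      have h0 := cut_nonneg n (-s)
      have h1 := cut_le_one n (-s)
      rw [Real.norm_eq_abs, abs_mul, abs_of_nonneg (by positivity : 0 ≤ |M| * Real.exp (-(γ * s))),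
        abs_of_nonneg (by linarith : 0 ≤ 1 - cutL n (-s))]
      exact mul_le_of_le_one_right (by positivity) (by linarith)
    · filter_upwards [ae_restrict_mem measurableSet_Ioi] with s hs
      apply tendsto_const_nhds.congr'
      filter_upwards [cut_ev s hs] with n hn
      rw [hn]; ring
  rw [integral_zero] at hlim
  obtain ⟨n, hn⟩ := (hlim.eventually (gt_mem_nhds (by linarith : (0:ℝ) < η / 2))).exists
  have hE : 0 < Real.exp ((n : ℝ) + 1) := Real.exp_pos _
  refine ⟨n, η / (2 * Real.exp (n + 1)), by positivity, ?_⟩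
  intro V _ g hg hgb
  set δ : ℝ := η / (2 * Real.exp (n + 1)) with hδ
  have hδ0 : 0 < δ := by positivity
  have hgint : IntegrableOn (fun s => ‖g s‖) (Ioi 0) := by
    refine Integrable.mono' (hexp.const_mul M) hg.norm.aestronglyMeasurable ?_
    filter_upwards [ae_restrict_mem measurableSet_Ioi] with s hs
    rw [norm_norm]
    exact hgb s (le_of_lt hs)
  have hfrac : ∀ x : ℝ, 0 ≤ x → x ^ 2 / (x + δ) ≤ x ∧ x - δ ≤ x ^ 2 / (x + δ) := by
    intro x hx
    constructor
    · rw [div_le_iff₀ (by linarith)]; nlinarith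
    · rw [le_div_iff₀ (by linarith)]; nlinarith
  have hcg : Continuous (fun s => cutL n (-s) * (‖g s‖ ^ 2 / (‖g s‖ + δ))) := by
    refine (cut_cont n).mul (Continuous.div (by fun_prop) (by fun_prop) ?_)
    intro s
    have := norm_nonneg (g s)
    linarith
  have hcint : IntegrableOn (fun s => cutL n (-s) * (‖g s‖ ^ 2 / (‖g s‖ + δ))) (Ioi 0) := by
    refine Integrable.mono' hgint hcg.aestronglyMeasurable ?_
    refine Filter.Eventually.of_forall fun s => ?_
    have h0 := cut_nonneg n (-s)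
    have h1 := cut_le_one n (-s)
    have h2 := norm_nonneg (g s)
    have h3 := (hfrac _ h2).1
    have h4 : 0 ≤ ‖g s‖ ^ 2 / (‖g s‖ + δ) := by positivity
    rw [Real.norm_eq_abs, abs_of_nonneg (by positivity)]
    nlinarith
  have hb1 : IntegrableOn (fun s => |M| * Real.exp (-(γ * s)) * (1 - cutL n (-s))) (Ioi 0) := by
    refine Integrable.mono' (hexp.const_mul |M|) ?_ ?_
    · apply Continuous.aestronglyMeasurable
      have := cut_cont n
      fun_prop
    · refine Filter.Eventually.of_forall fun s => ?_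
      have h0 := cut_nonneg n (-s)
      have h1 := cut_le_one n (-s)
      rw [Real.norm_eq_abs, abs_mul, abs_of_nonneg (by positivity : 0 ≤ |M| * Real.exp (-(γ * s))),
        abs_of_nonneg (by linarith : 0 ≤ 1 - cutL n (-s))]
      exact mul_le_of_le_one_right (by positivity) (by linarith)
  have hb2 : IntegrableOn (fun s : ℝ => δ * (Real.exp (n + 1) * Real.exp (-s))) (Ioi 0) :=
    (hexp1.const_mul _).const_mul _
  have hkey : ∫ s in Ioi (0 : ℝ), ‖g s‖ ≤ ∫ s in Ioi (0 : ℝ),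
      (cutL n (-s) * (‖g s‖ ^ 2 / (‖g s‖ + δ)) + (|M| * Real.exp (-(γ * s)) * (1 - cutL n (-s))
        + δ * (Real.exp (n + 1) * Real.exp (-s)))) := by
    apply setIntegral_mono_on hgint (hcint.add (hb1.add hb2)) measurableSet_Ioi
    intro s hs
    have h0 := cut_nonneg n (-s)
    have h1 := cut_le_one n (-s)
    have h2 := norm_nonneg (g s)
    have h3 := (hfrac _ h2).2
    have h4 := cut_le_exp n s
    have h5 : ‖g s‖ ≤ |M| * Real.exp (-(γ * s)) :=
      (hgb s (le_of_lt hs)).trans (mul_le_mul_of_nonneg_right (le_abs_self M) (Real.exp_pos _).le)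
    have h6 : cutL n (-s) * (‖g s‖ - δ) ≤ cutL n (-s) * (‖g s‖ ^ 2 / (‖g s‖ + δ)) :=
      mul_le_mul_of_nonneg_left h3 h0
    have h7 : δ * cutL n (-s) ≤ δ * (Real.exp (n + 1) * Real.exp (-s)) :=
      mul_le_mul_of_nonneg_left h4 hδ0.le
    have h8 : ‖g s‖ * (1 - cutL n (-s)) ≤ |M| * Real.exp (-(γ * s)) * (1 - cutL n (-s)) :=
      mul_le_mul_of_nonneg_right h5 (by linarith)
    show ‖g s‖ ≤ cutL n (-s) * (‖g s‖ ^ 2 / (‖g s‖ + δ)) + (|M| * Real.exp (-(γ * s)) * (1 - cutL n (-s))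
        + δ * (Real.exp (n + 1) * Real.exp (-s)))
    nlinarith
  have e1 : (∫ s in Ioi (0 : ℝ),
      (cutL n (-s) * (‖g s‖ ^ 2 / (‖g s‖ + δ)) + (|M| * Real.exp (-(γ * s)) * (1 - cutL n (-s))
        + δ * (Real.exp (n + 1) * Real.exp (-s))))) =
      (∫ s in Ioi (0 : ℝ), cutL n (-s) * (‖g s‖ ^ 2 / (‖g s‖ + δ))) +
      ((∫ s in Ioi (0 : ℝ), |M| * Real.exp (-(γ * s)) * (1 - cutL n (-s))) +
        ∫ s in Ioi (0 : ℝ), δ * (Real.exp (n + 1) * Real.exp (-s))) := by
    have a1 := integral_add hb1 hb2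
    have a2 := integral_add hcint (hb1.add hb2)
    simp only [Pi.add_apply] at a1 a2
    rw [← a1]
    exact a2
  have e2 : ∫ s in Ioi (0 : ℝ), δ * (Real.exp (n + 1) * Real.exp (-s)) = η / 2 := by
    rw [integral_const_mul, integral_const_mul, integral_exp_neg_Ioi_zero, hδ]
    field_simp
  rw [e1, e2] at hkey
  linarith

end Pool.Agent.X185.DWCO
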